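import Mathlib
import Pool.Agent.H350R3.QM.Val
import Pool.Agent.H350R3.QM.CloseR

set_option autoImplicit false

/-!
# Minimal very general quasimonomial valuations, and the bound up to `t ^ (-n)` for all large `t`

For one very general germ `ξ`, the valuation `v_{ξ, t}` is minimal for all `t = α ^ 2` with `α` in
the set `Root`, a set containing all the fractions `p / q` with `p ≥ q ^ 2` and `p ≥ 2 q`. These
`t` lie within `t ^ (-n)` of every large real number, and `v_{ξ, t}(f) ≤ (1 + t ^ (-n)) √t deg f`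
for all forms `f` and all large real `t`, the factor `1 + t ^ (-n)` being superfluous for
`deg f ≤ t ^ n`. For all real `t ≥ 4` the factor `1 + 1 / (2 ⌊√t⌋ ^ 2)` suffices.
-/

namespace Pool.Agent.Results.MP_dd8059_ag.MinimalValuations

open Pool.Agent.H932R3 Pool.Agent.H350R3.QM

/-- The coefficient of `x ^ i * z ^ j` in `f(x, ξ(x) + z, 1)`, where `ξ(x) = x * ∑ c_k x ^ k`. -/
noncomputable def coeffAt (c : ℕ → ℂ) (f : MvPolynomial (Fin 3) ℂ) (i j : ℕ) : ℂ :=
  PowerSeries.coeff i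
    ((MvPolynomial.aeval
      (![Polynomial.C PowerSeries.X,
         Polynomial.C (PowerSeries.X * PowerSeries.mk c) + Polynomial.X,
         1] : Fin 3 → Polynomial (PowerSeries ℂ)) f).coeff j)

/-- `v_{ξ, t}(f) ≤ B`. -/
def ValLE (c : ℕ → ℂ) (t : ℝ) (f : MvPolynomial (Fin 3) ℂ) (B : ℝ) : Prop :=
  ∃ i j : ℕ, coeffAt c f i j ≠ 0 ∧ (i : ℝ) + t * (j : ℝ) ≤ B

/-- `v_{ξ, t}(f) ≤ d √t` for all nonzero forms `f` of degree `d`, for all `d`. -/
def Minimal (c : ℕ → ℂ) (t : ℝ) : Prop :=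
  ∀ (d : ℕ) (f : MvPolynomial (Fin 3) ℂ), f.IsHomogeneous d → f ≠ 0 →
    ValLE c t f (d * Real.sqrt t)

/-- The integers `δ ≥ 2`, and, with `α`, all the quotients `ρ / α` of integers `ρ ≥ α ^ 2`. -/
inductive Root : ℝ → Prop
  | base (δ : ℕ) : 2 ≤ δ → Root δ
  | step (α : ℝ) (ρ : ℕ) : Root α → α ^ 2 ≤ ρ → Root (ρ / α)

theorem Root.reach {α : ℝ} (h : Root α) : 0 < α ∧ ∃ δ : ℕ, 2 ≤ δ ∧ Reach δ (α ^ 2) := by
  induction h with
  | base δ hδ =>
    refine ⟨by exact_mod_cast (show 0 < δ by omega), δ, hδ, Reach.base⟩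
  | step α ρ _ hρ ih =>
    obtain ⟨h0, δ, hδ, hr⟩ := ih
    have hρ0 : (0 : ℝ) < ρ := lt_of_lt_of_le (by positivity) hρ
    refine ⟨by positivity, δ, hδ, ?_⟩
    rw [div_pow]
    exact Reach.step _ ρ hr hρ

theorem Root.of_reach {δ : ℕ} (hδ : 2 ≤ δ) {σ : ℝ} (h : Reach δ σ) :
    0 < σ ∧ Root (Real.sqrt σ) := by
  induction h with
  | base =>
    have h0 : (0 : ℝ) < δ := by exact_mod_cast (show 0 < δ by omega)
    rw [Real.sqrt_sq h0.le]
    exact ⟨by positivity, Root.base δ hδ⟩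
  | step σ ρ _ hρ ih =>
    obtain ⟨h0, hr⟩ := ih
    have hρ0 : (0 : ℝ) < ρ := lt_of_lt_of_le h0 hρ
    refine ⟨by positivity, ?_⟩
    rw [Real.sqrt_div (by positivity), Real.sqrt_sq hρ0.le]
    exact Root.step _ ρ hr (by rwa [Real.sq_sqrt h0.le])

/-- The fractions `p / q` with `p ≥ q ^ 2` and `p ≥ 2 q`. -/
theorem Root.frac {p q : ℕ} (hq : 0 < q) (h1 : q ^ 2 ≤ p) (h2 : 2 * q ≤ p) :
    Root ((p : ℝ) / q) := by
  have hq0 : (0 : ℝ) < q := by exact_mod_cast hq
  rcases Nat.lt_or_ge 1 q with h | h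
  · exact Root.step q p (Root.base q h) (by exact_mod_cast h1)
  · have h3 : q = 1 := by omega
    subst h3
    rw [Nat.cast_one, div_one]
    exact Root.base p (by omega)

theorem result :
    (∀ p q : ℕ, 0 < q → q ^ 2 ≤ p → 2 * q ≤ p → Root ((p : ℝ) / q)) ∧
    ∃ (N : ℕ → ℝ) (S : ℕ → MvPolynomial ℕ ℂ), (∀ k, S k ≠ 0) ∧
      ∀ c : ℕ → ℂ, (∀ k, MvPolynomial.eval c (S k) ≠ 0) →
        (∀ α, Root α → Minimal c (α ^ 2)) ∧
        (∀ (t : ℝ), 4 ≤ t → ∀ (d : ℕ) (f : MvPolynomial (Fin 3) ℂ), f.IsHomogeneous d → f ≠ 0 →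
          ValLE c t f ((1 + 1 / (2 * (⌊Real.sqrt t⌋₊ : ℝ) ^ 2)) * (d * Real.sqrt t))) ∧
        ∀ (n : ℕ) (t : ℝ), N n ≤ t →
          (∃ α, Root α ∧ t - 1 / t ^ n ≤ α ^ 2 ∧ α ^ 2 < t) ∧
          ∀ (d : ℕ) (f : MvPolynomial (Fin 3) ℂ), f.IsHomogeneous d → f ≠ 0 →
            ValLE c t f ((1 + 1 / t ^ n) * (d * Real.sqrt t)) ∧
            ((d : ℝ) ≤ t ^ n → ValLE c t f (d * Real.sqrt t)) := by
  refine ⟨fun p q hq h1 h2 => Root.frac hq h1 h2, ?_⟩
  obtain ⟨S, hS, hS'⟩ := exists_veryGeneral ℂ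
  choose N hN using fun n => exists_close_real (n + 2)
  have hK : ∀ k : ℕ, 0 < k → ((k : ℕ) : ℂ) ≠ 0 := fun k hk => by
    exact_mod_cast hk.ne'
  refine ⟨fun n => max (N n : ℝ) 2, S, hS, fun c hc => ⟨fun α hα => ?_, fun t ht d f hf hf0 => ?_,
    fun n t ht => ?_⟩⟩
  · obtain ⟨h0, δ, hδ, hr⟩ := hα.reach
    intro d f hf hf0
    obtain ⟨i, j, h1, h2⟩ := bound_of_meets hK (hS' c hc) hδ hr (t := α ^ 2) (by positivity)
      hf hf0
    refine ⟨i, j, h1, h2.trans (le_of_eq ?_)⟩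
    rw [div_self (by positivity), max_self, mul_one]
  · obtain ⟨x, hx⟩ : ∃ x, x = Real.sqrt t := ⟨_, rfl⟩
    have hx2 : x * x = t := by
      rw [hx]
      exact Real.mul_self_sqrt (by linarith)
    have hx0 : 0 ≤ x := by
      rw [hx]
      exact Real.sqrt_nonneg t
    have hx4 : 2 ≤ x := by nlinarith
    rw [← hx]
    obtain ⟨q, hq⟩ : ∃ q : ℕ, q = ⌊x⌋₊ := ⟨_, rfl⟩
    have hq2 : 2 ≤ q := by
      rw [hq]
      exact Nat.le_floor (by exact_mod_cast hx4)
    have hqx : (q : ℝ) ≤ x := by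
      rw [hq]
      exact Nat.floor_le hx0
    rw [← hq]
    have hqR : (2 : ℝ) ≤ q := by exact_mod_cast hq2
    obtain ⟨p, hp⟩ : ∃ p : ℕ, p = ⌊(q : ℝ) * x⌋₊ := ⟨_, rfl⟩
    have hpq : q ^ 2 ≤ p := by
      rw [hp]
      refine Nat.le_floor ?_
      push_cast
      nlinarith
    have hp2 : 2 * q ≤ p := by
      have : 2 * q ≤ q ^ 2 := by
        rw [pow_two]
        exact Nat.mul_le_mul_right q hq2
      omega
    have hp3 : (p : ℝ) ≤ q * x := by
      rw [hp]
      exact Nat.floor_le (by positivity)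
    have hp4 : q * x < (p : ℝ) + 1 := by
      rw [hp]
      exact Nat.lt_floor_add_one _
    have hpR : (q : ℝ) ^ 2 ≤ p := by exact_mod_cast hpq
    have hp0 : (0 : ℝ) < p := by nlinarith
    have hval : ∀ m : ℕ, q ^ 2 ≤ m → 2 * q ≤ m → ∀ B : ℝ,
        (d : ℝ) * ((m : ℝ) / q * max 1 (t / ((m : ℝ) / q) ^ 2)) ≤ B → ValLE c t f B := by
      intro m hm1 hm2 B hB
      obtain ⟨h0, δ, hδ, hr⟩ := (Root.frac (by omega) hm1 hm2).reach
      obtain ⟨i, j, h1, h2⟩ := bound_of_meets hK (hS' c hc) hδ hr (t := t) (by linarith) hf hf0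
      refine ⟨i, j, h1, h2.trans ?_⟩
      rw [Real.sqrt_sq h0.le]
      exact hB
    have hd0 : (0 : ℝ) ≤ d := Nat.cast_nonneg d
    obtain ⟨e, he⟩ : ∃ e : ℝ, e = 1 / (2 * (q : ℝ) ^ 2) := ⟨_, rfl⟩
    have he0 : 0 < e := by
      rw [he]
      positivity
    have heq : 2 * e * (q : ℝ) ^ 2 = 1 := by
      rw [he]
      field_simp
    rw [← he]
    have hq0 : (0 : ℝ) < q := by linarith
    rcases le_or_gt (((p + 1 : ℕ) : ℝ) / q) ((1 + e) * x) with hc1 | hc1
    · refine hval (p + 1) (by omega) (by omega) _ ?_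
      have h1 : t / (((p + 1 : ℕ) : ℝ) / q) ^ 2 ≤ 1 := by
        rw [div_le_one (by positivity)]
        have h2 : x ≤ ((p + 1 : ℕ) : ℝ) / q := by
          rw [le_div_iff₀ hq0]
          push_cast
          linarith
        nlinarith
      rw [max_eq_left h1, mul_one]
      have := mul_le_mul_of_nonneg_left hc1 hd0
      linarith
    · refine hval p hpq hp2 _ ?_
      have h3 : (p : ℝ) / q ≤ x := by
        rw [div_le_iff₀ hq0]
        linarith
      have h1 : 1 ≤ t / ((p : ℝ) / q) ^ 2 := by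
        rw [one_le_div (by positivity)]
        have : (0 : ℝ) ≤ (p : ℝ) / q := by positivity
        nlinarith
      rw [max_eq_right h1]
      have h4 : (p : ℝ) / q * (t / ((p : ℝ) / q) ^ 2) = t * q / p := by
        field_simp
      rw [h4]
      have h5 : t * q / p ≤ (1 + e) * x := by
        rw [div_le_iff₀ hp0]
        rw [lt_div_iff₀ hq0] at hc1
        push_cast at hc1
        have h6 : x * q ≤ (1 + e) * p := by
          have h7 : 1 ≤ 2 * e * p := by
            rw [← heq]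
            exact mul_le_mul_of_nonneg_left hpR (by positivity)
          nlinarith
        have h8 := mul_le_mul_of_nonneg_left h6 hx0
        rw [← hx2]
        linarith
      have := mul_le_mul_of_nonneg_left h5 hd0
      linarith
  · have ht2 : 2 ≤ t := (le_max_right _ _).trans ht
    obtain ⟨δ, σ, hδ, hδt, hσ, hσ1, hσ2⟩ := hN n t ((le_max_left _ _).trans ht)
    have hδ2 : 2 ≤ δ := by omega
    have hσ0 : 0 < σ := hσ.pos (by omega)
    have ht0 : 0 < t := by linarith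
    have htn : 1 ≤ t ^ n := one_le_pow₀ (by linarith)
    have ht2' : 1 ≤ t ^ 2 := one_le_pow₀ (by linarith)
    have hσ3 : (t - σ) * t ^ n * t ^ 2 ≤ 1 := by
      rw [le_div_iff₀ (by positivity), pow_add] at hσ2
      linarith
    have hσ4 : (t - σ) * t ^ n ≤ 1 := by
      have h1 : 0 ≤ (t - σ) * t ^ n := by positivity
      nlinarith
    have hσ5 : t - σ ≤ 1 := by nlinarith
    have hσ6 : 1 ≤ σ := by linarith
    obtain ⟨u, hu⟩ : ∃ u, u = Real.sqrt (t / σ) := ⟨_, rfl⟩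
    have hu2 : u * u = t / σ := by
      rw [hu]
      exact Real.mul_self_sqrt (by positivity)
    have hu1 : 1 ≤ u := by
      rw [hu]
      refine Real.one_le_sqrt.2 ?_
      rw [one_le_div hσ0]
      linarith
    have hts : 1 ≤ t / σ := by
      rw [one_le_div hσ0]
      linarith
    have hst0 : 0 < Real.sqrt t := Real.sqrt_pos.2 ht0
    have hss0 : 0 < Real.sqrt σ := Real.sqrt_pos.2 hσ0
    have hμ : Real.sqrt σ * max 1 (t / σ) = Real.sqrt t * u := by
      rw [max_eq_right hts, hu, Real.sqrt_div ht0.le]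
      have h1 : Real.sqrt σ * Real.sqrt σ = σ := Real.mul_self_sqrt hσ0.le
      have h2 : Real.sqrt t * Real.sqrt t = t := Real.mul_self_sqrt ht0.le
      rw [mul_div_assoc', mul_div_assoc', div_eq_div_iff hσ0.ne' hss0.ne', h2]
      linear_combination t * h1
    have hu3 : u - 1 ≤ (t - σ) / 2 := by
      have h1 : t / σ - 1 ≤ t - σ := by
        rw [div_sub_one hσ0.ne', div_le_iff₀ hσ0]
        nlinarith
      nlinarith
    refine ⟨⟨Real.sqrt σ, (Root.of_reach hδ2 hσ).2, ?_, ?_⟩, fun d f hf hf0 => ⟨?_, fun hd => ?_⟩⟩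
    · rw [Real.sq_sqrt hσ0.le]
      have h1 : t - σ ≤ 1 / t ^ n := by
        rw [le_div_iff₀ (by positivity)]
        exact hσ4
      linarith
    · rw [Real.sq_sqrt hσ0.le]
      linarith
    · obtain ⟨i, j, h1, h2⟩ := bound_of_meets hK (hS' c hc) hδ2 hσ ht0 hf hf0
      refine ⟨i, j, h1, h2.trans ?_⟩
      rw [hμ]
      have h3 : u ≤ 1 + 1 / t ^ n := by
        have h4 : t - σ ≤ 1 / t ^ n := by
          rw [le_div_iff₀ (by positivity)]
          exact hσ4
        linarith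
      have h4 : 0 ≤ (d : ℝ) * Real.sqrt t := by positivity
      calc (d : ℝ) * (Real.sqrt t * u) = u * (d * Real.sqrt t) := by ring
        _ ≤ (1 + 1 / t ^ n) * (d * Real.sqrt t) := mul_le_mul_of_nonneg_right h3 h4
    · rcases Nat.eq_zero_or_pos d with rfl | hd0
      · obtain ⟨i, j, h1, h2⟩ := bound_of_meets hK (hS' c hc) hδ2 hσ ht0 hf hf0
        refine ⟨i, j, h1, h2.trans ?_⟩
        push_cast
        rw [zero_mul, zero_mul]
      · obtain ⟨E, hE⟩ : ∃ E : ℕ, E = δ * ((δ - 1) * (δ - 2)) := ⟨_, rfl⟩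
        have hE0 : 0 < E := by
          rw [hE]
          exact Nat.mul_pos (by omega) (Nat.mul_pos (by omega) (by omega))
        have hE1 : E ≤ (δ * δ) * (δ * δ) := by
          rw [hE]
          have h1 : (δ - 1) * (δ - 2) ≤ δ * δ := Nat.mul_le_mul (by omega) (by omega)
          have h2 : δ ≤ δ * δ := Nat.le_mul_of_pos_left δ (by omega)
          exact Nat.mul_le_mul h2 h1
        have hER : (E : ℝ) ≤ t ^ 2 := by
          have h1 : (E : ℝ) ≤ ((δ : ℝ) * δ) * (δ * δ) := by exact_mod_cast hE1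
          have h2 : (δ : ℝ) * δ ≤ t := by rwa [pow_two] at hδt
          have h3 : (0 : ℝ) ≤ (δ : ℝ) * δ := by positivity
          calc (E : ℝ) ≤ ((δ : ℝ) * δ) * (δ * δ) := h1
            _ ≤ t * t := mul_le_mul h2 h2 h3 ht0.le
            _ = t ^ 2 := by ring
        have hE0R : (0 : ℝ) < E := by exact_mod_cast hE0
        obtain ⟨i, j, h1, h2⟩ := bound_of_meets' hK (hS' c hc) hδ2 hσ ht0 (k := E) hE0 (by
          rw [← hE]
          have : E * 1 ≤ E * d := Nat.mul_le_mul_left E hd0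
          omega) hf hf0
        refine ⟨i, j, h1, h2.trans ?_⟩
        rw [hμ, div_le_iff₀ hE0R]
        have hδR : (4 : ℝ) ≤ δ := by exact_mod_cast hδ
        have hdR : (0 : ℝ) < d := by exact_mod_cast hd0
        have h3 : (E : ℝ) * d * (u - 1) ≤ 1 / 2 := by
          have h4 : (E : ℝ) * d ≤ t ^ 2 * t ^ n := mul_le_mul hER hd hdR.le (by positivity)
          have h5 : (E : ℝ) * d * (u - 1) ≤ (t ^ 2 * t ^ n) * ((t - σ) / 2) :=
            mul_le_mul h4 hu3 (by linarith) (by positivity)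
          have h6 : (t ^ 2 * t ^ n) * ((t - σ) / 2) = (t - σ) * t ^ n * t ^ 2 / 2 := by ring
          rw [h6] at h5
          linarith
        have h4 : (2 * ((E : ℝ) * d) + 3 - δ) / 2 * u ≤ E * d := by nlinarith
        calc (2 * ((E : ℝ) * d) + 3 - δ) / 2 * (Real.sqrt t * u) =
              ((2 * ((E : ℝ) * d) + 3 - δ) / 2 * u) * Real.sqrt t := by ring
          _ ≤ (E * d) * Real.sqrt t := mul_le_mul_of_nonneg_right h4 hst0.le
          _ = d * Real.sqrt t * E := by ring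

end Pool.Agent.Results.MP_dd8059_ag.MinimalValuations
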